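import Pool.Agent.W_f569db_t2.Main3

/-!
# The standard conjecture D for all powers of a variety is D for determinants of isotropic flags
-/

namespace Pool.Agent.W_f569db_alt.FlagCriterion

open Pool.Agent.WeilH_h6 Pool.Agent.WeilH_h6.VarClass H13F

universe u v w

/-- Let `W` be a Weil cohomology theory with coefficients in the field `K` of characteristic `0` and let
`X` be a variety such that the parity operator of `H(X)` is algebraic.

(A) The standard conjecture `D` fails for some power of `X` if and only if there is a finite filtration `F`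
of `H(X)`, self-dual for Poincaré duality, with `F^1 ≠ 0` (so `F^1 ⊇ F^2 ⊇ ⋯` is a flag of isotropic
subspaces), such that for some `N ≥ 1` the line `⨂_{t ≥ 1} det(F^t)^{⊗ N}` in `H(X)^{⊗ M} = H(X^M)` is
spanned by a numerically trivial class in the `K`-span of the algebraic classes (`DetNum`).

(B) Let `n ≥ 3`.  The following are equivalent:

1. `D` fails for `X^m` for some `m ≤ n`.
2. There is a finite filtration `F` of `H(X)`, self-dual for Poincaré duality, such that all algebraic
   classes on the `X^m`, `m ≤ n`, have weight `≥ 0`, and some nonzero algebraic class on some `X^m`,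
   `m ≤ n`, has weight `> 0`.
3. There is a filtration `F` as in 2. which moreover has the following properties: every numerically
   trivial class in the span of the algebraic classes on `X^m`, `m ≤ n`, has weight `> 0`; the isotropic
   subspace `F^1` is not zero; `F` is graded and multiplicative; the algebraic classes on `X` lie in
   `F^0`; the `F^t` are stable under all algebraic endomorphisms of `H(X)` and under all symmetries of
   `H(X)` (linear or semilinear); for every linear map `φ` which fixes all algebraic classes on the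
   `X^m`, `m ≤ n`, the product of the determinants of `φ` on the `F^t`, `t ≥ 1`, is a root of unity; and
   some power of the determinant line `⨂_{t ≥ 1} det(F^t)` is spanned by a numerically trivial class in
   the `K`-span of the algebraic classes. -/
theorem result {k : Type u} [Field k] {𝒱 : VarClass k} {K : Type v} [Field K] [CharZero K]
    {W : Weil.{u, v, w} 𝒱 K} (X : 𝒱.Obj) (hpar : ParityAlg W X) :
    ((∃ m, ¬ W.HomEqNum (X.pow m)) ↔ ∃ B : Filt W X, B.SelfDual ∧ B.F 1 ≠ ⊥ ∧ B.DetNum) ∧
    ∀ n : ℕ, 3 ≤ n → List.TFAE [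
      ∃ m ≤ n, ¬ W.HomEqNum (X.pow m),
      ∃ B : Filt W X, B.SelfDual ∧ B.AlgGe n ∧ B.SomeGt n,
      ∃ B : Filt W X, B.SelfDual ∧ B.AlgGe n ∧ B.SomeGt n ∧ B.NumGt n ∧ B.F 1 ≠ ⊥ ∧ B.Graded ∧
        B.Mult ∧ W.algSpan X ≤ B.F 0 ∧ B.AlgStable ∧ B.SymStable n ∧ B.DetTorsion n ∧ B.DetNum] := by
  refine ⟨⟨?_, ?_⟩, fun n hn => T2F.criterion3 X hpar n hn⟩
  · rintro ⟨m, hm⟩
    have h0 : ∃ m' ≤ max m 3, ¬ W.HomEqNum (X.pow m') := ⟨m, le_max_left _ _, hm⟩
    obtain ⟨B, h1, -, -, -, h5, -, -, -, -, -, -, h12⟩ :=
      ((T2F.criterion3 X hpar (max m 3) (le_max_right _ _)).out 0 2).1 h0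
    exact ⟨B, h1, h5, h12⟩
  · rintro ⟨B, -, -, h⟩
    exact T2F.not_homEqNum_of_detNum X hpar B h

end Pool.Agent.W_f569db_alt.FlagCriterion
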