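import Pool.Agent.W_f569db_h64.Main

set_option autoImplicit false

/-!
# Numerical equivalence is compatible with specialisation, and its description by relations

`W` is a Weil cohomology theory with coefficients in a field `K` of characteristic zero, `X` a variety,
`V_i = p_i H(X)` finitely many direct summands cut out by algebraic idempotents, on which a set `S` of
symmetries acts absolutely irreducibly, and which generate `H(X)` by means of correspondences with
rational coefficients; the `p_i` are combinations of rational correspondences with algebraic numbers of
`K` as coefficients, the automorphisms of `K` permute the `p_i`, and for every `i` and every sign some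
tensor product of conjugates of `V_i` (respectively of `V_i^∨`) contains an algebraic class which is not
numerically trivial.  (Example: abelian varieties in positive characteristic, by a
theorem of Zarhin.)

Let `m`, `j` be fixed, and consider cycles of codimension `j` on `X^m` with rational coefficients.

1. For a cycle `z` the following are equivalent: `z` is numerically trivial; `sp z` is numerically
   trivial, for all maps `sp` from cycles on `X^m` to cycles on a variety `Y` over some field `k'`
   (with a Weil cohomology theory over `k'` with the same coefficients) which preserve the linear
   relations with algebraic coefficients between the classes of cycles (for instance specialisation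
   maps); `z` is a `ℚ`-linear combination of cycles which occur in a relation between classes whose
   coefficients are algebraic elements of `K`, linearly independent over `ℚ`; the same with arbitrary
   coefficients in `K`.
2. The following are equivalent: `D` for `X^m` in codimension `j`; `D` in some codimension for some
   `Y` as above, with `sp z` homologically trivial only if `z` is; condition `I` of Tate for `X^m` in
   codimension `j`; the same condition for algebraic coefficients.
-/

namespace Pool.Agent.W_f569db_alt.NumRelations

open Pool.Agent.WeilH_h6 VarClass H64N

universe u v w

theorem result {k : Type u} [Field k] {𝒱 : VarClass k} {K : Type v} [Field K] [CharZero K]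
    (W : Weil.{u, v, w} 𝒱 K) (X : 𝒱.Obj) {I : Type} [Fintype I] (P : W.Pieces X I)
    (S : Set (W.Hom X X)) (hS : P.AbsIrr S) (D : P.RatData) (hD : NumClass D)
    (hG : RatGenerate P) (m j : ℕ) :
    (∀ z : Cyc (X.pow m) j, List.TFAE [W.NumTrivial z,
      ∀ (k' : Type u) (_ : Field k') (𝒱' : VarClass k') (W' : Weil.{u, v, w} 𝒱' K) (Y : 𝒱'.Obj)
        (j' : ℕ) (sp : Cyc (X.pow m) j → Cyc Y j'), PreservesRel W W' sp → W'.NumTrivial (sp z),
      z ∈ relCyc W (X.pow m) j {t | IsAlgebraic ℚ t}, z ∈ relCyc W (X.pow m) j Set.univ]) ∧
    List.TFAE [HomEqNumAt W (X.pow m) j,
      ∃ (k' : Type u) (_ : Field k') (𝒱' : VarClass k') (W' : Weil.{u, v, w} 𝒱' K) (Y : 𝒱'.Obj)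
        (j' : ℕ) (sp : Cyc (X.pow m) j → Cyc Y j'), PreservesRel W W' sp ∧
          (∀ z, W'.cl (sp z) = 0 → W.cl z = 0) ∧ HomEqNumAt W' Y j',
      CycIndepAt W (X.pow m) j Set.univ, CycIndepAt W (X.pow m) j {t | IsAlgebraic ℚ t}] :=
  ⟨fun z => numTrivial_tfae hS D hD hG z, homEqNumAt_tfae hS D hD hG m j⟩

end Pool.Agent.W_f569db_alt.NumRelations
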