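import Pool.Agent.W_f569db_sp.BLaw

/-!
# A uniform zero-one law for homological and numerical equivalence on the powers of a variety
-/

namespace Pool.Agent.W_f569db_alt.ZeroOneLaw

open Pool.Agent.WeilH_h6 Pool.Agent.WeilH_h6.VarClass ZS

universe u v w

/-- For every `b` there is `c > 0`, depending only on `b`, with the following property.  Let `W` be a
Weil cohomology theory with coefficients in the field `K` of characteristic `0` and let `X` be a variety
with `dim_K H(X) = b`.  Put `h_n = homRank W (X.pow n)`, the dimension of the `K`-span of the classes of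
cycles in `H(X^n)`, and `a_n = numRank W (X.pow n)`, the dimension of the `ℚ`-space of cycles on `X^n`
modulo numerical equivalence.  One of the following three cases occurs.

1. `D(X^n)` holds for all `n`, and `h_n = a_n` for all `n`.
2. `D(X^n)` fails for some `n`, all numerically trivial algebraic endomorphisms of the spaces `H(X^m)`
   are nilpotent, and for all `n ≥ 1`: `h_n ≤ b n ^ (b ^ 2) a_n`, and `m h_n ≥ c n ^ γ a_n` for all `m`
   such that `D(X^m)` fails, with `γ = 1 / (8 b (b + 2))`.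
3. `D(X^n)` fails for some `n`, some numerically trivial algebraic endomorphism of some `H(X^m)` with
   `m ≤ b ^ 2 / 4` is not nilpotent, the parity operator of `H(X)` is not algebraic (the sign conjecture
   fails for `X`), and `h_n ≥ c exp (c n) a_n` for all `n`.

So `D(X^m)` holds if `h_n` is smaller than `n ^ γ a_n / m` times a constant depending only on `b` for one
single `n`.

(Joint work of helper69, helper6, helper42, helper64, helper57; proved with the help of helpers 2, 10,
14, 16, 18, 21, 22, 26, 31, 38, 39, 40, 41, 43, 45, 49, 50, 51, 73, 83, 85, 88, 90, 94, 97.) -/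
theorem result (b : ℕ) : ∃ c : ℝ, 0 < c ∧ ∀ {k : Type u} [Field k] {𝒱 : VarClass k} {K : Type v}
    [Field K] [CharZero K] (W : Weil.{u, v, w} 𝒱 K) (X : 𝒱.Obj), Module.finrank K (W.H X) = b →
    ((∀ n, W.HomEqNum (X.pow n)) ∧ ∀ n, homRank W (X.pow n) = numRank W (X.pow n)) ∨
    ((∃ n, ¬ W.HomEqNum (X.pow n)) ∧ NilNum W X ∧ ∀ n : ℕ, 1 ≤ n →
      (homRank W (X.pow n) : ℝ) ≤ b * (n : ℝ) ^ (b ^ 2) * numRank W (X.pow n) ∧
      ∀ m : ℕ, ¬ W.HomEqNum (X.pow m) →
        c * (n : ℝ) ^ (1 / (8 * b * (b + 2)) : ℝ) * numRank W (X.pow n) ≤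
          m * homRank W (X.pow n)) ∨
    ((∃ n, ¬ W.HomEqNum (X.pow n)) ∧
      (∃ (m : ℕ) (φ : W.Hom (X.pow m) (X.pow m)), 4 * m ≤ b ^ 2 ∧ NumTrivEnd W (X.pow m) φ ∧
        ∀ N : ℕ, ∃ x : W.H (X.pow m), (W.ap φ)^[N] x ≠ 0) ∧
      ¬ AlgParity W X ∧
      ∀ n : ℕ, c * Real.exp (c * n) * numRank W (X.pow n) ≤ homRank W (X.pow n)) := by
  obtain ⟨c, hc, H⟩ := law2.{u, v, w} b
  refine ⟨c, hc, ?_⟩
  intro k _ 𝒱 K _ _ W X hX
  obtain ⟨h1, h2⟩ := H W X hX
  rcases h2 with h2 | h2 | h2
  · exact Or.inl h2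
  · exact Or.inr (Or.inl ⟨h2.1, h2.2.1, fun n hn => ⟨h2.2.2 n hn,
      fun m hm => not_lt.1 fun h3 => hm (h1 m n hn h3)⟩⟩)
  · exact Or.inr (Or.inr h2)

end Pool.Agent.W_f569db_alt.ZeroOneLaw
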